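import Pool.Agent.R94.CS.Stm

/-! Project CS: counting lower bound. -/

namespace Pool.Agent.R94.CS

theorem sL : SL := by
  intro t n M A hA hM
  obtain ⟨_, hpos, hinj, hcomp⟩ := hA
  classical
  let P : Finset (Finset (Fin n)) := Finset.univ.erase ∅
  have hP : P.card = 2 ^ n - 1 := by
    simp only [P]
    rw [Finset.card_erase_of_mem (Finset.mem_univ _), Finset.card_univ, Fintype.card_finset,
      Fintype.card_fin]
  have h1 : ((Finset.univ : Finset (Fin t)) ×ˢ P).card ≤ (Finset.Icc 1 (n * M)).card := by
    apply Finset.card_le_card_of_injOn (fun x => subsum (A x.1) x.2)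
    · intro x hx
      have hx' := (Finset.mem_product.1 (Finset.mem_coe.1 hx)).2
      have hne : x.2.Nonempty := Finset.nonempty_iff_ne_empty.2 (Finset.mem_erase.1 hx').1
      apply Finset.mem_coe.2
      rw [Finset.mem_Icc]
      constructor
      · exact Finset.sum_pos (fun i _ => hpos x.1 i) hne
      · calc ∑ i ∈ x.2, A x.1 i ≤ ∑ i ∈ x.2, M := Finset.sum_le_sum fun i _ => hM x.1 i
          _ = x.2.card * M := by rw [Finset.sum_const, smul_eq_mul]
          _ ≤ n * M := Nat.mul_le_mul_right _ (by
            have := Finset.card_le_univ x.2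
            rwa [Fintype.card_fin] at this)
    · intro x hx y hy hxy
      have hx' := (Finset.mem_product.1 (Finset.mem_coe.1 hx)).2
      have hnex : x.2.Nonempty := Finset.nonempty_iff_ne_empty.2 (Finset.mem_erase.1 hx').1
      have hy' := (Finset.mem_product.1 (Finset.mem_coe.1 hy)).2
      have hney : y.2.Nonempty := Finset.nonempty_iff_ne_empty.2 (Finset.mem_erase.1 hy').1
      obtain ⟨k, I⟩ := x
      obtain ⟨l, J⟩ := y
      by_cases hkl : k = l
      · subst hkl
        exact Prod.ext rfl (hinj k hxy)
      · exact absurd hxy (hcomp k l hkl I J hnex hney)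
  rw [Finset.card_product, Finset.card_univ, Fintype.card_fin, hP, Nat.card_Icc] at h1
  omega

end Pool.Agent.R94.CS
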