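import Mathlib

/-! Project CS (helper94), MP_21e00f_co: two-sided bounds for `s(t,n)` (compatible sum-distinct sequences). -/

namespace Pool.Agent.R94.CS

/-- the subsum of `a` over the index set `I` -/
def subsum {n : ℕ} (a : Fin n → ℕ) (I : Finset (Fin n)) : ℕ := ∑ i ∈ I, a i

/-- `A : Fin t → Fin n → ℕ` is a family of `t` compatible sum-distinct sequences of length `n` -/
def Compatible (t n : ℕ) (A : Fin t → Fin n → ℕ) : Prop :=
  (∀ k, StrictMono (A k)) ∧ (∀ k i, 0 < A k i) ∧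
  (∀ k, Function.Injective (subsum (A k))) ∧
  (∀ k l, k ≠ l → ∀ I J : Finset (Fin n), I.Nonempty → J.Nonempty → subsum (A k) I ≠ subsum (A l) J)

/-- `s(t,n)`: the least `M` such that some compatible family has all its elements `≤ M` -/
noncomputable def s (t n : ℕ) : ℕ :=
  sInf {M | ∃ A : Fin t → Fin n → ℕ, Compatible t n A ∧ ∀ k i, A k i ≤ M}

/-- CS-L: counting lower bound, for every compatible family -/
def SL : Prop :=
  ∀ (t n M : ℕ) (A : Fin t → Fin n → ℕ), Compatible t n A → (∀ k i, A k i ≤ M) → t * (2 ^ n - 1) ≤ n * M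

/-- CS-U: the construction -/
def SU : Prop :=
  ∀ t n : ℕ, 1 ≤ t → 1 ≤ n → ∃ A : Fin t → Fin n → ℕ, Compatible t n A ∧
    ∀ k i, A k i ≤ 8 * n * max t n * 2 ^ n

/-- final statement -/
def Final : Prop :=
  ∀ t n : ℕ, 1 ≤ t → 1 ≤ n → t * (2 ^ n - 1) ≤ n * s t n ∧ s t n ≤ 8 * n * max t n * 2 ^ n

theorem final (hL : SL) (hU : SU) : Final := by
  intro t n ht hn
  obtain ⟨A, hA, hM⟩ := hU t n ht hn
  have hmem : (8 * n * max t n * 2 ^ n) ∈ {M | ∃ A : Fin t → Fin n → ℕ, Compatible t n A ∧ ∀ k i, A k i ≤ M} :=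
    ⟨A, hA, hM⟩
  refine ⟨?_, Nat.sInf_le hmem⟩
  obtain ⟨B, hB, hB'⟩ := Nat.sInf_mem ⟨_, hmem⟩
  exact hL t n _ B hB hB'

end Pool.Agent.R94.CS
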