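import Pool.Agent.R94.CS.Stm

/-! CS-U: the CRT construction of compatible sum-distinct sequences. -/

namespace Pool.Agent.R94.CS

open Finset

lemma sum_two_pow_inj {n : ℕ} {I J : Finset (Fin n)}
    (h : ∑ i ∈ I, 2 ^ (i : ℕ) = ∑ i ∈ J, 2 ^ (i : ℕ)) : I = J := by
  have h1 := Finset.geomSum_injective (le_refl 2)
  have h2 : I.map Fin.valEmbedding = J.map Fin.valEmbedding := by
    apply h1
    simp only [Finset.sum_map, Fin.valEmbedding_apply]
    exact h
  exact Finset.map_injective _ h2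

theorem sU : SU := by
  intro t n ht hn
  obtain ⟨q, hq, hq1, hq2⟩ := Nat.exists_prime_lt_and_le_two_mul n (by omega)
  obtain ⟨p, hp, hp1, hp2⟩ := Nat.exists_prime_lt_and_le_two_mul (max t (2 * n)) (by
    have := le_max_left t (2 * n); omega)
  have hm1 : t ≤ max t (2 * n) := le_max_left _ _
  have hm2 : 2 * n ≤ max t (2 * n) := le_max_right _ _
  have hco : Nat.Coprime q p := (Nat.coprime_primes hq hp).2 (by omega)
  obtain ⟨S, hS1, hS2, hSlt⟩ : ∃ S : Fin t → ℕ, (∀ k, S k ≡ 1 [MOD q]) ∧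
      (∀ k, S k ≡ (k : ℕ) [MOD p]) ∧ ∀ k, S k < q * p := by
    refine ⟨fun k => (Nat.chineseRemainder hco 1 (k : ℕ) : ℕ), fun k => ?_, fun k => ?_,
      fun k => ?_⟩
    · exact (Nat.chineseRemainder hco 1 (k : ℕ)).2.1
    · exact (Nat.chineseRemainder hco 1 (k : ℕ)).2.2
    · exact Nat.chineseRemainder_lt_mul hco _ _ hq.ne_zero hp.ne_zero
  have hqp : 0 < q * p := Nat.mul_pos hq.pos hp.pos
  have hsub : ∀ (k : Fin t) (I : Finset (Fin n)),
      subsum (fun i : Fin n => S k + q * p * 2 ^ (i : ℕ)) I =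
        I.card * S k + q * p * ∑ i ∈ I, 2 ^ (i : ℕ) := by
    intro k I
    simp [subsum, Finset.sum_add_distrib, Finset.mul_sum]
  have hcard : ∀ I : Finset (Fin n), I.card ≤ n := by
    intro I
    simpa using Finset.card_le_univ I
  have hceq : ∀ (k l : Fin t) (I J : Finset (Fin n)),
      I.card * S k + q * p * ∑ i ∈ I, 2 ^ (i : ℕ) =
        J.card * S l + q * p * ∑ i ∈ J, 2 ^ (i : ℕ) → I.card = J.card := by
    intro k l I J h
    have h1 : ∀ (k : Fin t) (I : Finset (Fin n)),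
        I.card * S k + q * p * ∑ i ∈ I, 2 ^ (i : ℕ) ≡ I.card [MOD q] := by
      intro k I
      have h2 : I.card * S k ≡ I.card * 1 [MOD q] := (hS1 k).mul_left _
      have h3 : q * p * ∑ i ∈ I, 2 ^ (i : ℕ) ≡ 0 [MOD q] := by
        rw [Nat.modEq_zero_iff_dvd, mul_assoc]
        exact Dvd.intro _ rfl
      simpa using h2.add h3
    have h4 : I.card ≡ J.card [MOD q] := (h1 k I).symm.trans (h ▸ h1 l J)
    exact Nat.ModEq.eq_of_lt_of_lt h4 (lt_of_le_of_lt (hcard I) hq1)
      (lt_of_le_of_lt (hcard J) hq1)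
  refine ⟨fun k i => S k + q * p * 2 ^ (i : ℕ), ⟨?_, ?_, ?_, ?_⟩, ?_⟩
  · intro k i j hij
    have h1 : (2 : ℕ) ^ (i : ℕ) < 2 ^ (j : ℕ) := Nat.pow_lt_pow_right (by norm_num) hij
    have h2 := Nat.mul_lt_mul_of_pos_left h1 hqp
    exact Nat.add_lt_add_left h2 _
  · intro k i
    exact Nat.add_pos_right _ (Nat.mul_pos hqp (by positivity))
  · intro k I J h
    rw [hsub, hsub] at h
    have h1 := hceq k k I J h
    rw [h1] at h
    have h2 := Nat.eq_of_mul_eq_mul_left hqp (Nat.add_left_cancel h)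
    exact sum_two_pow_inj h2
  · intro k l hkl I J hI hJ h
    rw [hsub, hsub] at h
    have h1 := hceq k l I J h
    have h2 : ∀ (k : Fin t) (I : Finset (Fin n)),
        I.card * S k + q * p * ∑ i ∈ I, 2 ^ (i : ℕ) ≡ I.card * (k : ℕ) [MOD p] := by
      intro k I
      have h2 : I.card * S k ≡ I.card * (k : ℕ) [MOD p] := (hS2 k).mul_left _
      have h3 : q * p * ∑ i ∈ I, 2 ^ (i : ℕ) ≡ 0 [MOD p] := by
        rw [Nat.modEq_zero_iff_dvd, mul_comm q p, mul_assoc]
        exact Dvd.intro _ rfl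
      simpa using h2.add h3
    have h3 : I.card * (k : ℕ) ≡ I.card * (l : ℕ) [MOD p] := by
      have h4 := (h2 k I).symm.trans (h ▸ h2 l J)
      rwa [← h1] at h4
    have hIpos : 0 < I.card := Finset.card_pos.2 hI
    have hIlt : I.card < p := by
      have := hcard I
      omega
    have h5 : Nat.gcd p I.card = 1 := by
      rw [← Nat.coprime_iff_gcd_eq_one, Nat.Prime.coprime_iff_not_dvd hp]
      intro h6
      exact absurd (Nat.le_of_dvd hIpos h6) (by omega)
    have h6 := Nat.ModEq.cancel_left_of_coprime h5 h3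
    have h7 := Nat.ModEq.eq_of_lt_of_lt h6 (by have := k.2; omega) (by have := l.2; omega)
    exact hkl (Fin.ext h7)
  · intro k i
    have h1 : q * p ≤ 8 * n * max t n := by
      have h2 : q * p ≤ (2 * n) * (2 * max t (2 * n)) := Nat.mul_le_mul hq2 hp2
      have h3 : max t (2 * n) ≤ 2 * max t n := by
        rcases le_total t n with h | h
        · rw [max_eq_right h]
          exact max_le (by omega) le_rfl
        · rw [max_eq_left h]
          exact max_le (by omega) (by omega)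
      calc q * p ≤ (2 * n) * (2 * max t (2 * n)) := h2
        _ ≤ (2 * n) * (2 * (2 * max t n)) := by gcongr
        _ = 8 * n * max t n := by ring
    have h2 : S k + q * p * 2 ^ (i : ℕ) ≤ q * p * 2 ^ n := by
      have h3 : 2 ^ (i : ℕ) + 1 ≤ 2 ^ n := by
        have h4 : (2 : ℕ) ^ ((i : ℕ) + 1) ≤ 2 ^ n := Nat.pow_le_pow_right (by norm_num) i.2
        have h5 : 1 ≤ 2 ^ (i : ℕ) := Nat.one_le_two_pow
        rw [pow_succ] at h4
        omega
      calc S k + q * p * 2 ^ (i : ℕ) ≤ q * p + q * p * 2 ^ (i : ℕ) := by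
            have := hSlt k
            omega
        _ = q * p * (2 ^ (i : ℕ) + 1) := by ring
        _ ≤ q * p * 2 ^ n := Nat.mul_le_mul_left _ h3
    exact h2.trans (Nat.mul_le_mul_right _ h1)

end Pool.Agent.R94.CS
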